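import Pool.Agent.Helper40.Nil.Stmts

/-!
General Weyl dichotomy.
-/

set_option autoImplicit false

namespace Pool.Agent.Helper40.Nil

open Filter Topology
open scoped ComplexConjugate InnerProductSpace

universe u

section wg

variable {D : Type} [AddCommGroup D] {M : ℕ} {ψ : D → D → Circle}

/-- `ψ h` is `m`-periodic -/
def wgP (ψ : D → D → Circle) (m : ℕ) (h : D) : Prop := ∀ x k, ψ h (x + m • k) = ψ h x

theorem wg_zero (hB : ∀ h h' x, ψ (h + h') x = ψ h (x + M • h') * ψ h' x) (x : D) : ψ 0 x = 1 := by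
  have h := hB 0 0 x
  rw [add_zero, smul_zero, add_zero] at h
  have h2 : ψ 0 x * 1 = ψ 0 x * ψ 0 x := by rw [mul_one]; exact h
  exact (mul_left_cancel h2).symm

theorem wg_neg (hB : ∀ h h' x, ψ (h + h') x = ψ h (x + M • h') * ψ h' x) (h x : D) :
    ψ (-h) x = (ψ h (x + M • (-h)))⁻¹ := by
  have h1 := hB h (-h) x
  rw [add_neg_cancel, wg_zero hB] at h1
  exact (inv_eq_of_mul_eq_one_right h1.symm).symm

theorem wgP_zero (hB : ∀ h h' x, ψ (h + h') x = ψ h (x + M • h') * ψ h' x) (m : ℕ) :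
    wgP ψ m 0 := by
  intro x k
  rw [wg_zero hB, wg_zero hB]

theorem wgP_add (hB : ∀ h h' x, ψ (h + h') x = ψ h (x + M • h') * ψ h' x) {m : ℕ} {h h' : D}
    (h1 : wgP ψ m h) (h2 : wgP ψ m h') : wgP ψ m (h + h') := by
  intro x k
  rw [hB, hB, h2, add_right_comm, h1]

theorem wgP_neg (hB : ∀ h h' x, ψ (h + h') x = ψ h (x + M • h') * ψ h' x) {m : ℕ} {h : D}
    (h1 : wgP ψ m h) : wgP ψ m (-h) := by
  intro x k
  rw [wg_neg hB, wg_neg hB, add_right_comm, h1]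

theorem wgP_mul {m : ℕ} {h : D} (h1 : wgP ψ m h) (n : ℕ) : wgP ψ (n * m) h := by
  intro x k
  rw [mul_comm, mul_smul, h1]

theorem wgP_nsmul (hB : ∀ h h' x, ψ (h + h') x = ψ h (x + M • h') * ψ h' x) {m : ℕ} {h : D}
    (h1 : wgP ψ m h) (n : ℕ) : wgP ψ m (n • h) := by
  induction n with
  | zero => rw [zero_smul]; exact wgP_zero hB m
  | succ n ih => rw [succ_nsmul]; exact wgP_add hB ih h1

/-- the ratio of two values at a multiple -/
theorem wg_ratio (hB : ∀ h h' x, ψ (h + h') x = ψ h (x + M • h') * ψ h' x) (h x y : D) (n : ℕ) :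
    ψ (n • h) x * (ψ (n • h) y)⁻¹ =
      ∏ i ∈ Finset.range n, (ψ h (x + i • (M • h)) * (ψ h (y + i • (M • h)))⁻¹) := by
  induction n with
  | zero => rw [zero_smul, wg_zero hB, wg_zero hB, Finset.prod_range_zero, mul_inv_cancel]
  | succ n ih =>
    have e : M • (n • h) = n • (M • h) := smul_comm M n h
    rw [Finset.prod_range_succ, ← ih, succ_nsmul', hB, hB, e, mul_inv]
    exact mul_mul_mul_comm _ _ _ _ |>.trans (mul_comm _ _)

theorem wg_prod (r : ℕ → Circle) (m : ℕ) (hr : ∀ i, r (i + m) = r i) (n : ℕ) :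
    ∏ i ∈ Finset.range (m * n), r i = (∏ i ∈ Finset.range m, r i) ^ n := by
  induction n with
  | zero => simp
  | succ n ih =>
    rw [Nat.mul_succ, Finset.prod_range_add, ih, pow_succ]
    congr 1
    apply Finset.prod_congr rfl
    intro i _
    have : ∀ j, r (m * j + i) = r i := by
      intro j
      induction j with
      | zero => rw [Nat.mul_zero, Nat.zero_add]
      | succ j ihj =>
        have e1 : m * (j + 1) + i = (m * j + i) + m := by ring
        rw [e1, hr, ihj]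
    exact this n

/-- the final step: a multiple on which `ψ` does not depend on the point -/
theorem wg_const (hB : ∀ h h' x, ψ (h + h') x = ψ h (x + M • h') * ψ h' x) (m e : ℕ) (h : D)
    (h1 : wgP ψ m h) (h2 : ∀ x y, (ψ h x * (ψ h y)⁻¹) ^ e = 1) (x y : D) :
    ψ ((m * e) • h) x = ψ ((m * e) • h) y := by
  have h3 := wg_ratio hB h x y (m * e)
  rw [wg_prod _ m (fun i => by
    have e1 : ∀ z : D, z + (i + m) • (M • h) = (z + i • (M • h)) + m • (M • h) := by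
      intro z
      rw [add_smul, add_assoc]
    rw [e1, e1, h1, h1]) e, ← Finset.prod_pow] at h3
  rw [Finset.prod_eq_one (fun i _ => h2 _ _)] at h3
  exact mul_inv_eq_one.1 h3

end wg

theorem wg_case1 (hAVG0 : ST_AVG.{0}) (hVDC : ST_VDC.{u}) (D : Type) [AddCommGroup D]
    (Φ : ℕ → Finset D) (hΦ : IsFolner Φ) (E : Type u) [NormedAddCommGroup E]
    [InnerProductSpace ℂ E] (a : D → E) (ha : ∀ x, ‖a x‖ = 1) (M : ℕ) (ψ : D → D → Circle)
    (hA : ∀ x h, a (x + M • h) = ((ψ h x : Circle) : ℂ) • a x)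
    (hB : ∀ h h' x, ψ (h + h') x = ψ h (x + M • h') * ψ h' x)
    (hD : ∀ h, Tendsto (fun N => avg (Φ N) (fun x => ((ψ h x : Circle) : ℂ))) atTop (𝓝 0) ∨
      ∃ m : ℕ, 1 ≤ m ∧ ∀ x k, ψ h (x + m • k) = ψ h x)
    (d : D) (hd : ∀ n m : ℕ, 1 ≤ n → 1 ≤ m → ¬ wgP ψ m (n • d)) :
    Tendsto (fun N => avg (Φ N) a) atTop (𝓝 0) := by
  have key : ∀ k : ℕ, 1 ≤ k → ∀ ε : ℝ, 0 < ε → ∀ᶠ N in atTop, ‖avg (Φ N) a‖ ^ 2 ≤ 1 / (k : ℝ) + ε := by
    intro k hk
    refine hVDC D Φ hΦ E a (fun x => (ha x).le) k hk (fun i => M • ((i : ℕ) • d)) ?_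
    intro i j hij
    obtain ⟨h, hh⟩ : ∃ h, h = (i : ℕ) • d - (j : ℕ) • d := ⟨_, rfl⟩
    have hnT : ∀ m : ℕ, 1 ≤ m → ¬ wgP ψ m h := by
      intro m hm hP
      have hij' : (i : ℕ) ≠ (j : ℕ) := fun h => hij (Fin.ext h)
      rcases Nat.lt_or_gt_of_ne hij' with h1 | h1
      · apply hd ((j : ℕ) - i) m (by omega) hm
        have e : ((j : ℕ) - i) • d = -h := by
          rw [hh, neg_sub, sub_nsmul _ h1.le]
          abel
        rw [e]
        exact wgP_neg hB hP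
      · apply hd ((i : ℕ) - j) m (by omega) hm
        have e : ((i : ℕ) - j) • d = h := by
          rw [hh, sub_nsmul _ h1.le]
          abel
        rw [e]
        exact hP
    have hlim : Tendsto (fun N => avg (Φ N) (fun x => ((ψ h x : Circle) : ℂ))) atTop (𝓝 0) := by
      rcases hD h with h1 | ⟨m, hm, h1⟩
      · exact h1
      · exact absurd h1 (hnT m hm)
    have h2 := hAVG0.1 D Φ hΦ ℂ (fun x => ((ψ h x : Circle) : ℂ)) 1 (fun x => by
      rw [Circle.norm_coe]) (M • ((j : ℕ) • d))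
    have h3 : Tendsto (fun N => avg (Φ N) (fun x => ((ψ h (x + M • ((j : ℕ) • d)) : Circle) : ℂ)))
        atTop (𝓝 0) := by
      have := h2.add hlim
      rw [add_zero] at this
      refine this.congr (fun N => ?_)
      exact sub_add_cancel _ _
    have h4 : Tendsto (fun N => conj (avg (Φ N)
        (fun x => ((ψ h (x + M • ((j : ℕ) • d)) : Circle) : ℂ)))) atTop (𝓝 0) := by
      have := (Complex.continuous_conj.tendsto (0 : ℂ)).comp h3
      rw [map_zero] at this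
      exact this
    refine h4.congr (fun N => ?_)
    unfold avg
    rw [smul_eq_mul, smul_eq_mul, map_mul, map_sum, map_inv₀, Complex.conj_natCast]
    congr 1
    apply Finset.sum_congr rfl
    intro x _
    show conj ((ψ h (x + M • ((j : ℕ) • d)) : Circle) : ℂ) =
      ⟪a (x + M • ((i : ℕ) • d)), a (x + M • ((j : ℕ) • d))⟫_ℂ
    rw [hA, hA, inner_smul_left, inner_smul_right, inner_self_eq_norm_sq_to_K, ha]
    have e1 : ψ ((i : ℕ) • d) x = ψ h (x + M • ((j : ℕ) • d)) * ψ ((j : ℕ) • d) x := by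
      rw [← hB, hh, sub_add_cancel]
    rw [e1, Circle.coe_mul, map_mul]
    have e2 : conj ((ψ ((j : ℕ) • d) x : Circle) : ℂ) * ((ψ ((j : ℕ) • d) x : Circle) : ℂ) = 1 := by
      rw [← Complex.normSq_eq_conj_mul_self, Circle.normSq_coe, Complex.ofReal_one]
    have e3 : ((1 : ℝ) : ℂ) ^ 2 = 1 := by norm_num
    calc _ = conj ((ψ h (x + M • ((j : ℕ) • d)) : Circle) : ℂ) * 1 := by rw [mul_one]
      _ = conj ((ψ h (x + M • ((j : ℕ) • d)) : Circle) : ℂ) *
          (conj ((ψ ((j : ℕ) • d) x : Circle) : ℂ) * ((ψ ((j : ℕ) • d) x : Circle) : ℂ)) := by rw [e2]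
      _ = _ := by
        simp
        ring
  rw [tendsto_zero_iff_norm_tendsto_zero]
  rw [Metric.tendsto_atTop]
  intro ε hε
  obtain ⟨k, hk⟩ := exists_nat_gt (2 / ε ^ 2)
  have hε2 : 0 < ε ^ 2 := by positivity
  have hk0 : 0 < (k : ℝ) := lt_trans (by positivity) hk
  have hk1 : 1 ≤ k := by exact_mod_cast hk0
  obtain ⟨N0, hN0⟩ := eventually_atTop.1 (key k hk1 (ε ^ 2 / 4) (by positivity))
  refine ⟨N0, fun N hN => ?_⟩
  rw [Real.dist_eq, sub_zero, abs_of_nonneg (norm_nonneg _)]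
  have h1 := hN0 N hN
  have h2 : 1 / (k : ℝ) < ε ^ 2 / 2 := by
    rw [div_lt_iff₀ hk0]
    rw [div_lt_iff₀ hε2] at hk
    nlinarith
  have h3 : ‖avg (Φ N) a‖ ^ 2 < ε ^ 2 := by nlinarith
  exact lt_of_pow_lt_pow_left₀ 2 hε.le h3

theorem st_WG (hAVG0 : ST_AVG.{0}) (hAVG : ST_AVG.{u}) (hVDC : ST_VDC.{u}) (hPERT : ST_PERT.{0}) :
    ST_WG.{u} := by
  intro D _ hFG Φ hΦ E _ _ a ha M hM ψ hA hB hC hD
  by_cases hall : ∀ d : D, ∃ n m : ℕ, 1 ≤ n ∧ 1 ≤ m ∧ wgP ψ m (n • d)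
  · choose n m hn hm hnm using hall
    obtain ⟨S, hS⟩ := AddGroup.fg_def.1 hFG
    obtain ⟨M1, hM1⟩ : ∃ M1, M1 = ∏ d ∈ S, n d := ⟨_, rfl⟩
    obtain ⟨m2, hm2⟩ : ∃ m2, m2 = ∏ d ∈ S, m d := ⟨_, rfl⟩
    have hM1pos : 1 ≤ M1 := by
      rw [hM1]
      exact Nat.one_le_iff_ne_zero.2 (Finset.prod_ne_zero_iff.2 (fun d _ => by have := hn d; omega))
    have hm2pos : 1 ≤ m2 := by
      rw [hm2]
      exact Nat.one_le_iff_ne_zero.2 (Finset.prod_ne_zero_iff.2 (fun d _ => by have := hm d; omega))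
    have hgen : ∀ d ∈ S, wgP ψ m2 (M1 • d) := by
      intro d hd
      obtain ⟨c, hc⟩ : n d ∣ M1 := by rw [hM1]; exact Finset.dvd_prod_of_mem n hd
      obtain ⟨c', hc'⟩ : m d ∣ m2 := by rw [hm2]; exact Finset.dvd_prod_of_mem m hd
      have e1 : M1 • d = c • (n d • d) := by rw [hc, mul_comm, mul_smul]
      rw [e1, hc', mul_comm]
      exact wgP_mul (wgP_nsmul hB (hnm d) c) c'
    have hPt : ∀ d : D, ∃ e : ℕ, 1 ≤ e ∧ (d ∈ S → ∀ x : D,
        (ψ (M1 • d) x * (ψ (M1 • d) 0)⁻¹) ^ e = 1) := by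
      intro d
      by_cases hd : d ∈ S
      · obtain ⟨e, he, h1⟩ := hPERT D Circle (ψ (M1 • d)) (hC _) m2 hm2pos (hgen d hd)
        exact ⟨e, he, fun _ => h1⟩
      · exact ⟨1, le_refl _, fun h => absurd h hd⟩
    choose e he hex using hPt
    obtain ⟨e0, he0⟩ : ∃ e0, e0 = ∏ d ∈ S, e d := ⟨_, rfl⟩
    have he0pos : 1 ≤ e0 := by
      rw [he0]
      exact Nat.one_le_iff_ne_zero.2 (Finset.prod_ne_zero_iff.2 (fun d _ => by have := he d; omega))
    -- the subgroup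
    obtain ⟨Q, hQ⟩ : ∃ Q : AddSubgroup D, ∀ h, h ∈ Q ↔ wgP ψ m2 h ∧
        ∀ x y, (ψ h x * (ψ h y)⁻¹) ^ e0 = 1 :=
      ⟨{ carrier := {h | wgP ψ m2 h ∧ ∀ x y, (ψ h x * (ψ h y)⁻¹) ^ e0 = 1}
         zero_mem' := ⟨wgP_zero hB m2, fun x y => by
           rw [wg_zero hB, wg_zero hB, mul_inv_cancel, one_pow]⟩
         add_mem' := by
           rintro h h' ⟨h1, h2⟩ ⟨h3, h4⟩
           refine ⟨wgP_add hB h1 h3, fun x y => ?_⟩
           rw [hB, hB, mul_inv, mul_mul_mul_comm, mul_pow, h2, h4, one_mul]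
         neg_mem' := by
           rintro h ⟨h1, h2⟩
           refine ⟨wgP_neg hB h1, fun x y => ?_⟩
           rw [wg_neg hB, wg_neg hB, inv_inv, mul_comm]
           exact h2 _ _ }, fun h => Iff.rfl⟩
    have hQS : ∀ d ∈ S, M1 • d ∈ Q := by
      intro d hd
      rw [hQ]
      refine ⟨hgen d hd, fun x y => ?_⟩
      obtain ⟨c, hc⟩ : e d ∣ e0 := by rw [he0]; exact Finset.dvd_prod_of_mem e hd
      have h1 : ∀ x, (ψ (M1 • d) x * (ψ (M1 • d) 0)⁻¹) ^ e0 = 1 := by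
        intro x
        rw [hc, pow_mul, hex d hd, one_pow]
      have h2 : ψ (M1 • d) x * (ψ (M1 • d) y)⁻¹ = (ψ (M1 • d) x * (ψ (M1 • d) 0)⁻¹) *
          (ψ (M1 • d) y * (ψ (M1 • d) 0)⁻¹)⁻¹ := by
        group
      rw [h2, mul_pow, inv_pow, h1, h1, inv_one, mul_one]
    have hQall : ∀ h, M1 • h ∈ Q := by
      intro h
      have h1 : (⊤ : AddSubgroup D) ≤ Q.comap (nsmulAddMonoidHom M1) := by
        rw [← hS, AddSubgroup.closure_le]
        intro d hd
        exact hQS d hd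
      exact h1 (AddSubgroup.mem_top h)
    obtain ⟨m0, hm0⟩ : ∃ m0, m0 = (m2 * e0) * M1 := ⟨_, rfl⟩
    have hm0pos : 1 ≤ m0 := by
      rw [hm0]
      exact Nat.mul_pos (Nat.mul_pos hm2pos he0pos) hM1pos
    have hconst : ∀ h x y, ψ (m0 • h) x = ψ (m0 • h) y := by
      intro h x y
      rw [hm0, mul_smul]
      obtain ⟨h1, h2⟩ := (hQ _).1 (hQall h)
      exact wg_const hB m2 e0 (M1 • h) h1 h2 x y
    by_cases hone : ∀ h x, ψ (m0 • h) x = 1
    · exact Or.inr ⟨m0, hm0pos, hone⟩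
    · left
      push Not at hone
      obtain ⟨h0, x0, hx0⟩ := hone
      have h1 := hAVG.1 D Φ hΦ E a 1 (fun x => (ha x).le) (M • (m0 • h0))
      have h2 : ∀ N, avg (Φ N) (fun x => a (x + M • (m0 • h0))) - avg (Φ N) a =
          (((ψ (m0 • h0) x0 : Circle) : ℂ) - 1) • avg (Φ N) a := by
        intro N
        have e1 : (fun x => a (x + M • (m0 • h0))) =
            fun x => ((ψ (m0 • h0) x0 : Circle) : ℂ) • a x := by
          funext x
          rw [hA, hconst h0 x x0]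
        rw [e1]
        unfold avg
        rw [← Finset.smul_sum, sub_smul, one_smul, smul_comm]
      have h3 : (((ψ (m0 • h0) x0 : Circle) : ℂ) - 1) ≠ 0 := by
        rw [sub_ne_zero]
        intro h
        apply hx0
        apply Circle.ext
        rw [h, Circle.coe_one]
      have h4 : Tendsto (fun N => (((ψ (m0 • h0) x0 : Circle) : ℂ) - 1) • avg (Φ N) a) atTop
          (𝓝 0) := h1.congr h2
      have h5 := h4.const_smul ((((ψ (m0 • h0) x0 : Circle) : ℂ) - 1)⁻¹)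
      rw [smul_zero] at h5
      refine h5.congr (fun N => ?_)
      rw [smul_smul, inv_mul_cancel₀ h3, one_smul]
  · left
    push Not at hall
    obtain ⟨d, hd⟩ := hall
    exact wg_case1 hAVG0 hVDC D Φ hΦ E a ha M ψ hA hB hD d hd

end Pool.Agent.Helper40.Nil
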